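import Pool.Agent.helper46.T7.SpecC

/-!
# Row t7:CSD (MP_16912e_nt): one conductor, all discriminants, `lam t` up to `R √N`
-/

set_option autoImplicit false

namespace Pool.Agent.T7

open Finset NumberField Pool.Agent.helper3.FT Pool.Agent.helper47.RA Pool.Agent.T5 Pool.Agent.T6
open Pool.Agent.helper26.T5 (nn LEMB LP HCL HGA LYT LAW)
open Pool.Agent.helper28.LT (rad)

theorem CSD : CSD_stmt := by
  intro hUB hOFD hOAR
  obtain ⟨C₀, hC₀, hub⟩ := hUB
  obtain ⟨hO1, hO2⟩ := hOAR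
  refine ⟨48 * (1 + 4 * Real.pi) ^ 2 * C₀ + 1, ?_, ?_⟩
  · have : 0 ≤ 48 * (1 + 4 * Real.pi) ^ 2 * C₀ := by positivity
    linarith
  intro h hh N R f hN hR hf h5 F hF
  have hpi0 : 0 < Real.pi := Real.pi_pos
  have hf0 : (0 : ℝ) < f := by exact_mod_cast hf
  have hf1 : (1 : ℝ) ≤ f := by exact_mod_cast hf
  have hN0 : 0 < N := by linarith
  have hsN : 0 < √N := Real.sqrt_pos.2 hN0
  have hR0 : 0 < R := by linarith
  have hsR : 0 < R * √N := mul_pos hR0 hsN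
  have hfZ : ((f : ℤ) ^ 2) ≠ 0 := by
    have : (f : ℤ) ≠ 0 := by exact_mod_cast (show f ≠ 0 by omega)
    exact pow_ne_zero _ this
  have hWW : (0 : ℝ) < √(Pool.Agent.T6L.WW f : ℝ) := Real.sqrt_pos.2 (by exact_mod_cast Pool.Agent.T6L.OSD_WW f)
  have hgw0 : 0 ≤ Pool.Agent.T6L.gw f := by
    unfold Pool.Agent.T6L.gw
    positivity
  -- the discriminants
  set s : Finset ℤ := F.image (fun t => dis t / (f : ℤ) ^ 2) with hs
  have hsprop : ∀ D ∈ s, IsFund D ∧ N / 4 ≤ -(D : ℝ) * (f : ℝ) ^ 2 ∧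
      -(D : ℝ) * (f : ℝ) ^ 2 ≤ N := by
    intro D hD
    obtain ⟨t, ht, rfl⟩ := mem_image.1 hD
    obtain ⟨hT, D₀, hD₀, hdis⟩ := hF t ht
    have h1 := hT.d1
    have h2 := hT.d2
    have hq : dis t / (f : ℤ) ^ 2 = D₀ := by
      rw [hdis]
      exact Int.mul_ediv_cancel _ hfZ
    rw [hq]
    rw [hdis] at h1 h2
    push_cast at h1 h2
    refine ⟨hD₀, ?_, ?_⟩
    · linarith
    · linarith
  have hsneg : ∀ D ∈ s, (D : ℝ) < 0 := by
    intro D hD
    obtain ⟨-, h1, -⟩ := hsprop D hD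
    by_contra h0
    push Not at h0
    have : -(D : ℝ) * (f : ℝ) ^ 2 ≤ 0 := by
      have : 0 ≤ (D : ℝ) * (f : ℝ) ^ 2 := by positivity
      linarith
    linarith
  set K1 : ℝ := 24 * (1 + 4 * Real.pi) ^ 2 * Pool.Agent.T6L.gw f * (f : ℝ) ^ 2 * R with hK1
  have hK10 : 0 ≤ K1 := by rw [hK1]; positivity
  -- one field
  have hone : ∀ D ∈ s, ((F.filter (fun t => dis t / (f : ℤ) ^ 2 = D)).card : ℝ) ≤ K1 * h D := by
    intro D hD
    obtain ⟨hD1, hD2, hD3⟩ := hsprop D hD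
    have hDneg := hsneg D hD
    obtain ⟨Φ⟩ := Pool.Agent.helper68.T5.HSD_fld D hD1
    have hQD : Φ.Q.D = D := Φ.hD
    have hcl : (h D : ℝ) = (Nat.card {x : ClassGroup (𝓞 Φ.K) // x ^ 5 = 1} : ℝ) := by
      have e := hh Φ.K Φ.fin
      rw [Φ.dK] at e
      exact_mod_cast e
    have hf4 : f ^ 4 ≠ 0 := pow_ne_zero _ (by omega)
    -- one value of `b`
    have hb : ∀ b ∈ (f ^ 4).divisors,
        (((F.filter (fun t => dis t / (f : ℤ) ^ 2 = D)).filter (fun t => Pool.Agent.T6L.ff f t.2.2.2.toNat = b)).card : ℝ) ≤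
        24 * (1 + 4 * Real.pi) ^ 2 * 49 ^ f.primeFactors.card * ((f ^ 20).divisors.card : ℝ) ^ 2 * h D *
          (R * ((f : ℝ) ^ 2 / √(Pool.Agent.T6L.WW f : ℝ))) := by
      intro b hbm
      have hbdvd : b ∣ f ^ 4 := Nat.dvd_of_mem_divisors hbm
      have hb1 : 1 ≤ b := Nat.pos_of_mem_divisors hbm
      obtain ⟨hs1, hs2, hr1, hO3⟩ := hO2 f b hf hb1
      have hb0 : (0 : ℝ) < b := by exact_mod_cast hb1
      have hr0 : (0 : ℝ) < Pool.Agent.T6L.rb f b := by exact_mod_cast hr1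
      have hs0 : (0 : ℝ) < Pool.Agent.T6L.sl f b := by exact_mod_cast hs1
      have h1 := hOFD Φ.K Φ.Q f b √N (R * √N) Φ.fin (by rw [hQD]; exact_mod_cast hDneg) hf h5 hsN hsR
        ((F.filter (fun t => dis t / (f : ℤ) ^ 2 = D)).filter (fun t => Pool.Agent.T6L.ff f t.2.2.2.toNat = b)) (by
          intro t ht
          rw [mem_filter, mem_filter] at ht
          obtain ⟨⟨ht1, ht2⟩, ht3⟩ := ht
          obtain ⟨hT, D₀, -, hdis⟩ := hF t ht1
          refine ⟨hT.tt, hT.z1, hT.z2, hT.l1, hT.l2, ?_, ht3⟩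
          rw [hQD, ← ht2, hdis, Int.mul_ediv_cancel _ hfZ])
      rw [← hcl, hQD] at h1
      set A : ℝ := max 1 ((f : ℝ) / ((b : ℝ) * Pool.Agent.T6L.rb f b)) with hA
      set B : ℝ := R * ((f : ℝ) / Pool.Agent.T6L.sl f b) with hB
      have hA1 : 1 ≤ A := le_max_left _ _
      have hB1 : 1 ≤ B := by
        rw [hB]
        refine one_le_mul_of_one_le_of_one_le hR ?_
        rw [one_le_div hs0]
        exact_mod_cast hs2
      have tY := Pool.Agent.T6L.OSD_term N (D : ℝ) ((b : ℝ) * Pool.Agent.T6L.rb f b) f hf (by positivity) hN hD2 hDneg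
      have tX0 := Pool.Agent.T6L.OSD_term N (D : ℝ) (Pool.Agent.T6L.sl f b : ℝ) f hf hs0 hN hD2 hDneg
      have tX : 2 * Real.pi * (R * √N) / ((Pool.Agent.T6L.sl f b : ℝ) * √|(D : ℝ)|) ≤ 4 * Real.pi * B := by
        have e1 : 2 * Real.pi * (R * √N) / ((Pool.Agent.T6L.sl f b : ℝ) * √|(D : ℝ)|) =
            R * (2 * Real.pi * √N / ((Pool.Agent.T6L.sl f b : ℝ) * √|(D : ℝ)|)) := by ring
        have e2 : 4 * Real.pi * B = R * (4 * Real.pi * ((f : ℝ) / Pool.Agent.T6L.sl f b)) := by rw [hB]; ring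
        rw [e1, e2]
        exact mul_le_mul_of_nonneg_left tX0 hR0.le
      have tY' : 2 * Real.pi * √N / ((b : ℝ) * Pool.Agent.T6L.rb f b * √|(D : ℝ)|) ≤ 4 * Real.pi * A :=
        tY.trans (mul_le_mul_of_nonneg_left (le_max_right _ _) (by positivity))
      have h2 := Pool.Agent.T6L.OSD_prod f.primeFactors.card (h D : ℝ) A B
        (2 * Real.pi * √N / ((b : ℝ) * Pool.Agent.T6L.rb f b * √|(D : ℝ)|))
        (2 * Real.pi * (R * √N) / ((Pool.Agent.T6L.sl f b : ℝ) * √|(D : ℝ)|)) ((b ^ 5).divisors.card : ℝ)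
        (Nat.cast_nonneg _) hA1 hB1 (Nat.cast_nonneg _) (by positivity) (by positivity) tY' tX
      refine h1.trans (h2.trans ?_)
      have hdc : ((b ^ 5).divisors.card : ℝ) ≤ ((f ^ 20).divisors.card : ℝ) := by
        have h3 : b ^ 5 ∣ f ^ 20 := by
          have h4 := pow_dvd_pow_of_dvd hbdvd 5
          rwa [← pow_mul] at h4
        exact_mod_cast Finset.card_le_card (Nat.divisors_subset_of_dvd (pow_ne_zero _ (by omega)) h3)
      have hdc2 : ((b ^ 5).divisors.card : ℝ) ^ 2 ≤ ((f ^ 20).divisors.card : ℝ) ^ 2 :=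
        pow_le_pow_left₀ (Nat.cast_nonneg _) hdc 2
      have hAB : A * B ≤ R * ((f : ℝ) ^ 2 / √(Pool.Agent.T6L.WW f : ℝ)) := by
        have e1 : A * ((f : ℝ) / Pool.Agent.T6L.sl f b) ≤ (f : ℝ) ^ 2 / √(Pool.Agent.T6L.WW f : ℝ) := by
          rw [le_div_iff₀ hWW]
          exact hO3
        calc A * B = R * (A * ((f : ℝ) / Pool.Agent.T6L.sl f b)) := by rw [hB]; ring
          _ ≤ _ := mul_le_mul_of_nonneg_left e1 hR0.le
      have hAB0 : 0 ≤ A * B := by positivity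
      have hhD : (0 : ℝ) ≤ h D := Nat.cast_nonneg _
      refine mul_le_mul ?_ hAB hAB0 (by positivity)
      refine mul_le_mul_of_nonneg_right ?_ hhD
      exact mul_le_mul_of_nonneg_left hdc2 (by positivity)
    have hmaps : ∀ t ∈ F.filter (fun t => dis t / (f : ℤ) ^ 2 = D), Pool.Agent.T6L.ff f t.2.2.2.toNat ∈ (f ^ 4).divisors := by
      intro t ht
      rw [mem_filter] at ht
      obtain ⟨hT, -⟩ := hF t ht.1
      have hz := hT.z1
      obtain ⟨-, -, h3, -⟩ := hO1 f t.2.2.2.toNat hf (by omega)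
      exact Nat.mem_divisors.2 ⟨h3, hf4⟩
    have hcard := Finset.card_eq_sum_card_fiberwise (s := F.filter (fun t => dis t / (f : ℤ) ^ 2 = D))
      (t := (f ^ 4).divisors) (f := fun t => Pool.Agent.T6L.ff f t.2.2.2.toNat) (fun t ht => hmaps t ht)
    rw [hcard]
    push_cast
    refine (Finset.sum_le_sum hb).trans ?_
    rw [Finset.sum_const, nsmul_eq_mul, hK1]
    refine le_of_eq ?_
    unfold Pool.Agent.T6L.gw
    ring
  -- the sum
  have hcard : (F.card : ℝ) = ∑ D ∈ s, ((F.filter (fun t => dis t / (f : ℤ) ^ 2 = D)).card : ℝ) := by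
    rw [card_eq_sum_card_image (fun t => dis t / (f : ℤ) ^ 2) F]
    push_cast
    rfl
  rcases s.eq_empty_or_nonempty with he | hne
  · rw [hcard, he, Finset.sum_empty]
    positivity
  have hNf : 1 ≤ N / (f : ℝ) ^ 2 := by
    obtain ⟨D, hD⟩ := hne
    obtain ⟨-, -, h3⟩ := hsprop D hD
    have h4 := hsneg D hD
    have h5 : (D : ℝ) ≤ -1 := by
      have h6 : D < 0 := by exact_mod_cast h4
      have h7 : D ≤ -1 := by omega
      exact_mod_cast h7
    rw [one_le_div (by positivity)]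
    nlinarith [sq_nonneg (f : ℝ)]
  have hsum := hub h hh (⌊N / (f : ℝ) ^ 2⌋₊ + 1) s (by
    intro D hD
    obtain ⟨h1, -, h3⟩ := hsprop D hD
    have h4 := hsneg D hD
    have h6 : D < 0 := by exact_mod_cast h4
    refine ⟨h1, h6, ?_⟩
    have h7 : -(D : ℝ) ≤ N / (f : ℝ) ^ 2 := by
      rw [le_div_iff₀ (by positivity)]
      exact h3
    have h8 : D.natAbs ≤ ⌊N / (f : ℝ) ^ 2⌋₊ := by
      refine Nat.le_floor ?_
      have h9 : ((D.natAbs : ℕ) : ℝ) = -(D : ℝ) := by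
        rw [Nat.cast_natAbs, abs_of_neg h6]
        push_cast
        ring
      rw [h9]
      exact h7
    rw [Int.abs_eq_natAbs]
    exact_mod_cast Nat.lt_succ_of_le h8)
  have hfl : ((⌊N / (f : ℝ) ^ 2⌋₊ + 1 : ℕ) : ℝ) ≤ 2 * (N / (f : ℝ) ^ 2) := by
    have h1 : (⌊N / (f : ℝ) ^ 2⌋₊ : ℝ) ≤ N / (f : ℝ) ^ 2 := Nat.floor_le (by positivity)
    push_cast
    linarith
  have hfin : ∑ D ∈ s, (h D : ℝ) ≤ 2 * C₀ * N / (f : ℝ) ^ 2 := by
    refine hsum.trans ((mul_le_mul_of_nonneg_left hfl hC₀).trans (le_of_eq ?_))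
    ring
  rw [hcard]
  calc ∑ D ∈ s, ((F.filter (fun t => dis t / (f : ℤ) ^ 2 = D)).card : ℝ)
      ≤ ∑ D ∈ s, K1 * (h D : ℝ) := Finset.sum_le_sum hone
    _ = K1 * ∑ D ∈ s, (h D : ℝ) := by rw [mul_sum]
    _ ≤ K1 * (2 * C₀ * N / (f : ℝ) ^ 2) := mul_le_mul_of_nonneg_left hfin hK10
    _ = 48 * (1 + 4 * Real.pi) ^ 2 * C₀ * R * Pool.Agent.T6L.gw f * N := by
        rw [hK1]
        field_simp
        ring
    _ ≤ (48 * (1 + 4 * Real.pi) ^ 2 * C₀ + 1) * R * Pool.Agent.T6L.gw f * N := by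
        have : 0 ≤ R * Pool.Agent.T6L.gw f * N := by positivity
        nlinarith

end Pool.Agent.T7
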